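import Mathlib
import Pool.Agent.H.MP_e8a7ad_pr.D

namespace Pool.Agent.Results.MP_e8a7ad_pr.Converges

open MeasureTheory ProbabilityTheory Filter Topology Function Pool.Agent.H.MP_e8a7ad_pr
open scoped ENNReal NNReal

/-- `N t` counts the rings up to time `t` of a rate one Poisson clock -/
structure IsClock {Ω : Type} [MeasurableSpace Ω] (N : ℝ≥0 → Ω → ℕ) (P : Measure Ω) : Prop where
  meas : ∀ t, Measurable (N t)
  zero : ∀ ω, N 0 ω = 0
  mono : ∀ ω, Monotone fun t => N t ω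
  rc : ∀ ω t, ContinuousWithinAt (fun s => N s ω) (Set.Ici t) t
  indep : HasIndepIncrements N P
  law : ∀ s t, s ≤ t → HasLaw (fun ω => N t ω - N s ω) (poissonMeasure (t - s)) P

/-- the path `f` follows the edge-averaging rule for the ring counts `N`; the pair `(x, i)` is the
edge from `x` to `x + e_i` -/
structure Averaging {d : ℕ} (N : (Fin d → ℤ) × Fin d → ℝ≥0 → ℕ) (f : ℝ≥0 → (Fin d → ℤ) → ℝ) :
    Prop where
  stay : ∀ v s t, s ≤ t →
    (∀ i, N (v, i) t = N (v, i) s ∧ N (v - Pi.single i 1, i) t = N (v - Pi.single i 1, i) s) →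
    f t v = f s v
  jump : ∀ x i t, 0 < t → (∀ s < t, N (x, i) s < N (x, i) t) →
    f t x = (leftLim (fun s => f s x) t + leftLim (fun s => f s (x + Pi.single i 1)) t) / 2 ∧
    f t (x + Pi.single i 1) = f t x

variable {d : ℕ} {Ω : Type} [MeasurableSpace Ω] {P : Measure Ω} [IsProbabilityMeasure P]
  {N : E d → ℝ≥0 → Ω → ℕ}

lemma law (hN : ∀ e, IsClock (N e) P) (hi : iIndepFun (fun e ω t => N e t ω) P)
    {g : Ω → V d → ℝ} (hg : Measurable g) (hi' : IndepFun g (fun ω e t => N e t ω) P) (n : ℕ) :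
    MeasurePreserving (fun ω => (g ω, inc (fun e t => N e t ω) n)) P
      (Pm (P.map g) (poissonMeasure (1 / n))) := by
  have m : ∀ e k, Measurable fun ω => N e (tm n (k + 1)) ω - N e (tm n k) ω :=
    fun e k => ((hN e).meas _).sub ((hN e).meas _)
  have m2 : Measurable fun ω => inc (fun e t => N e t ω) n :=
    measurable_pi_lambda _ fun k => measurable_pi_lambda _ fun e => m e k
  refine ⟨hg.prodMk m2, ?_⟩
  have h1 : IndepFun g (fun ω => inc (fun e t => N e t ω) n) P :=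
    hi'.comp measurable_id (ψ := fun z : E d → ℝ≥0 → ℕ => inc z n) (by unfold inc; fun_prop)
  rw [h1.map_prod_eq_prod_map_map hg.aemeasurable m2.aemeasurable]
  congr 1
  have h2 := iIndepFun_uncurry' m
    (hi.comp (fun _ (z : ℝ≥0 → ℕ) k => z (tm n (k + 1)) - z (tm n k)) fun _ => by fun_prop)
    fun e => (hN e).indep.nat (tm_mono n)
  have h3 := (h2.precomp (g := fun p : (_ : ℕ) × E d => (p.2, p.1)) (by
    rintro ⟨a, b⟩ ⟨c, e⟩ h
    simp only [Prod.mk.injEq] at h
    obtain ⟨rfl, rfl⟩ := h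
    rfl)).map_fun_eq_infinitePi_map fun p => m _ _
  have h4 : ∀ e k, P.map (fun ω => N e (tm n (k + 1)) ω - N e (tm n k) ω) =
      poissonMeasure (1 / n) := fun e k => by
    rw [((hN e).law _ _ (tm_mono n k.le_succ)).map_eq, tm, tm]
    push_cast
    rw [add_div, add_tsub_cancel_left]
  simp only [h4] at h3
  rw [← Measure.infinitePi_map_piCurry (fun (_ : ℕ) (_ : E d) => poissonMeasure (1 / n)), ← h3,
    Measure.map_map (MeasurableEquiv.measurable _) (measurable_pi_lambda _ fun p => m _ _)]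
  rfl

lemma unbdd {N : ℝ≥0 → Ω → ℕ} (h : IsClock N P) : ∀ᵐ ω ∂P, ∀ t, ∃ b, N t ω < N b ω := by
  have : ∀ m : ℕ, ∀ᵐ ω ∂P, ∃ b, N m ω < N b ω := fun m => by
    rw [ae_iff, ← nonpos_iff_eq_zero]
    have h1 : Tendsto (fun j : ℕ => ENNReal.ofReal (Real.exp (-j))) atTop (𝓝 (ENNReal.ofReal 0)) :=
      ENNReal.tendsto_ofReal
        (Real.tendsto_exp_neg_atTop_nhds_zero.comp tendsto_natCast_atTop_atTop)
    refine (ge_of_tendsto' h1 fun j => ?_).trans (by simp)
    have h2 := (h.law m (m + j) le_self_add).measure_eq (p := fun n => n = 0) (by trivial)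
    rw [add_tsub_cancel_left] at h2
    refine (measure_mono fun ω hω => ?_).trans (h2.le.trans ?_)
    · exact Nat.sub_eq_zero_of_le (not_lt.1 fun hc => hω ⟨_, hc⟩)
    · rw [Set.ofPred_eq_eq_singleton, poissonMeasure_singleton]; simp
  filter_upwards [ae_all_iff.2 this] with ω hω t
  obtain ⟨b, hb⟩ := hω ⌈t⌉₊
  exact ⟨b, (h.mono ω (Nat.le_ceil t)).trans_lt hb⟩

lemma small (hd : 1 ≤ d) (ν : Measure (V d → ℝ)) [IsProbabilityMeasure ν] (j : ℕ) (v : V d) :
    Tendsto (fun n : ℕ => Pm ν (poissonMeasure (1 / n)) {ω | Δ ω.2 (j * n) v}) atTop (𝓝 0) := by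
  have h1 := ENNReal.tendsto_ofReal (tendsto_const_div_atTop_nhds_zero_nat
    (j * (2 * d * (1 + 4 * d) : ℕ) * Real.exp (2 * d * j)))
  rw [ENNReal.ofReal_zero] at h1
  refine tendsto_of_tendsto_of_tendsto_of_le_of_le' tendsto_const_nhds h1
    (Eventually.of_forall fun _ => zero_le) ?_
  filter_upwards [eventually_gt_atTop 0] with n hn
  have hn' : (0 : ℝ) < n := by exact_mod_cast hn
  refine (P_Δ ν _ (ε := ((1 / n : ℝ≥0) : ℝ≥0∞)) ?_ (po_two _) _ v).trans ?_
  · rw [← ofReal_measureReal, ← ENNReal.ofReal_coe_nnreal]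
    exact ENNReal.ofReal_le_ofReal (po_le _)
  · generalize 2 * d * (1 + 4 * d) = C
    rw [← ENNReal.coe_natCast, ← ENNReal.coe_natCast C, ← ENNReal.coe_natCast (2 * d)]
    norm_cast
    rw [← ENNReal.ofReal_coe_nnreal]
    refine ENNReal.ofReal_le_ofReal ?_
    push_cast
    have : (1 + 2 * d * (1 / n) : ℝ) ^ (j * n) ≤ Real.exp (2 * d * j) := by
      calc _ ≤ Real.exp (2 * d * (1 / n)) ^ (j * n) := by
            gcongr
            linarith [Real.add_one_le_exp (2 * d * (1 / n))]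
        _ = _ := by rw [← Real.exp_nat_mul]; congr 1; push_cast; field_simp
    calc _ ≤ j * n * (C * (1 / n) ^ 2) * Real.exp (2 * d * j) := by gcongr
      _ = _ := by field_simp

theorem result (d : ℕ) (hd : 1 ≤ d) (Ω : Type) [MeasurableSpace Ω] (P : Measure Ω)
    [IsProbabilityMeasure P] (N : (Fin d → ℤ) × Fin d → ℝ≥0 → Ω → ℕ)
    (f : ℝ≥0 → Ω → (Fin d → ℤ) → ℝ) (hN : ∀ e, IsClock (N e) P)
    (hi : iIndepFun (fun e ω t => N e t ω) P) (hf : Measurable (f 0))
    (hi' : IndepFun (f 0) (fun ω e t => N e t ω) P)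
    (M : ℝ) (hM : ∀ᵐ ω ∂P, ∀ v, |f 0 ω v| ≤ M)
    (hs : ∀ a, P.map (fun ω v => f 0 ω (v + a)) = P.map (f 0))
    (hA : ∀ᵐ ω ∂P, Averaging (fun e t => N e t ω) fun t => f t ω) :
    ∀ᵐ ω ∂P, ∀ v, ∃ l, Tendsto (fun t => f t ω v) atTop (𝓝 l) := by
  have : IsProbabilityMeasure (P.map (f 0)) := Measure.isProbabilityMeasure_map hf.aemeasurable
  have hν : ∀ a, (P.map (f 0)).map (fun g x => g (x + a)) = P.map (f 0) := fun a => by
    rw [Measure.map_map (by fun_prop) hf]; exact hs a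
  have hM' : ∀ᵐ g ∂P.map (f 0), ∀ x, |g x| ≤ M := (ae_map_iff hf.aemeasurable (by measurability)).2 hM
  refine ae_all_iff.2 fun v => ?_
  have key : ∀ m : ℕ, ∀ᵐ ω ∂P, ∀ᶠ j in atTop,
      ¬ AA (1 / (m + 1 : ℝ)) v j (fun e t => N e t ω) fun t => f t ω := fun m => by
    have hδ : (0 : ℝ) < 1 / (m + 1 : ℝ) := by positivity
    generalize (1 / (m + 1 : ℝ)) = δ at *
    refine bc (A := fun j => {ω | AA δ v j (fun e t => N e t ω) fun t => f t ω})
      (B := fun n j => {ω | ∃ k, k / n = j ∧ (f 0 ω, inc (fun e t => N e t ω) n) ∈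
        Bk ((poissonMeasure (1 / n)).real {0}ᶜ) δ v k})
      (D := fun n j => {ω | Δ (inc (fun e t => N e t ω) n) ((j + 1) * n) v})
      (C := (2 * d : ℕ) * ENNReal.ofReal (6 * M ^ 2) / ENNReal.ofReal (δ ^ 2))
      (ENNReal.div_ne_top (ENNReal.mul_ne_top (ENNReal.natCast_ne_top _) ENNReal.ofReal_ne_top)
        (by simpa using hδ.ne')) ?_
      (fun j => ?_) fun j ω hω => AA.ev hd hω
    · filter_upwards [eventually_ge_atTop (4 * d)] with n hn
      have n0 : 0 < n := by omega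
      have n2 : (0 : ℝ) < n := by exact_mod_cast n0
      have b1 : (poissonMeasure (1 / n)).real {0}ᶜ ≤ 1 / n := by simpa using po_le (1 / n)
      have b2 : 0 < (poissonMeasure (1 / n)).real {0}ᶜ := by
        refine lt_of_lt_of_le (by positivity) (po_ge ?_)
        rw [div_le_one (by exact_mod_cast n0)]; exact_mod_cast n0
      have d2 : (4 * d : ℝ) ≤ n := by exact_mod_cast hn
      refine le_trans ?_ (B_sum _ hν b2 (by rw [le_div_iff₀ n2] at b1; nlinarith) hM' v hδ)
      simp only [Set.ofPred_exists]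
      refine (ENNReal.tsum_le_tsum fun j => measure_iUnion_le _).trans ?_
      rw [ENNReal.tsum_comm]
      refine ENNReal.tsum_le_tsum fun k => ?_
      rw [tsum_eq_single (k / n) fun j hj => by simp [hj.symm],
        ← (law hN hi hf hi' n).measure_preimage (mBk _ _ _ _).nullMeasurableSet]
      simp only [true_and]
      rfl
    · refine (small hd (P.map (f 0)) (j + 1) v).congr fun n => ?_
      rw [← (law hN hi hf hi' n).measure_preimage (mΔ _ _).nullMeasurableSet]
      rfl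
  filter_upwards [ae_all_iff.2 key, ae_of_ae_map hf.aemeasurable (erg hd hν hM' v), hA,
    ae_all_iff.2 fun e => unbdd (hN e)] with ω h1 ⟨l, h2⟩ h3 h4
  refine ⟨l, conv (N := fun e t => N e t ω) (f := fun t => f t ω) hd
    ⟨fun e => (hN e).mono ω, fun e => (hN e).rc ω, fun v s t hst h => h3.stay v s t hst
      fun i => ⟨h (i, true), h (i, false)⟩, ?_⟩ h2 h4 h1⟩
  rintro x ⟨i, _ | _⟩ t ht h
  · obtain ⟨a, b⟩ := h3.jump (x - Pi.single i 1) i t ht h
    rw [sub_add_cancel] at a b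
    rw [b, a, add_comm, sub_eq_add_neg]
    rfl
  · exact (h3.jump x i t ht h).1

end Pool.Agent.Results.MP_e8a7ad_pr.Converges
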